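import Mathlib

set_option autoImplicit false

/-!
Project OS, job OS-A: Laplace transform of an exponential polynomial average (helper113).
-/

open MeasureTheory Filter Topology Set

namespace Pool.Agent.TH942.OS

/-- the function with the Laplace transform `∫ w(u) ξ / (s (s - u ξ)) du` -/
noncomputable def hz (w : ℝ → ℝ) (b ξ T : ℝ) : ℝ :=
  ∫ u in Ioo 0 b, w u * ((Real.exp (u * ξ * T) - 1) / u)

namespace Hz

lemma exp_sub_one_le {x : ℝ} : Real.exp x - 1 ≤ x * Real.exp x := by
  have h1 := Real.add_one_le_exp (-x)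
  have h2 : Real.exp (-x) * Real.exp x = 1 := by rw [← Real.exp_add]; simp
  nlinarith [Real.exp_pos x]

lemma ker_nonneg {w : ℝ → ℝ} {ξ : ℝ} (h0 : ∀ u, 0 ≤ w u) (hξ : 0 < ξ) {u T : ℝ} (hu : 0 < u)
    (hT : 0 ≤ T) : 0 ≤ w u * ((Real.exp (u * ξ * T) - 1) / u) := by
  have h1 : 1 ≤ Real.exp (u * ξ * T) := Real.one_le_exp (by positivity)
  exact mul_nonneg (h0 u) (div_nonneg (by linarith) hu.le)

lemma ker_le {w : ℝ → ℝ} {W b ξ : ℝ} (h0 : ∀ u, 0 ≤ w u) (hW : ∀ u, w u ≤ W) (hξ : 0 < ξ)
    {u T : ℝ} (hu : 0 < u) (hub : u ≤ b) (hT : 0 ≤ T) :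
    w u * ((Real.exp (u * ξ * T) - 1) / u) ≤ W * (ξ * T * Real.exp (b * ξ * T)) := by
  have hW0 : 0 ≤ W := (h0 u).trans (hW u)
  have h1 : (Real.exp (u * ξ * T) - 1) / u ≤ ξ * T * Real.exp (b * ξ * T) := by
    rw [div_le_iff₀ hu]
    have h2 := exp_sub_one_le (x := u * ξ * T)
    have h3 : Real.exp (u * ξ * T) ≤ Real.exp (b * ξ * T) := by
      apply Real.exp_le_exp.2
      have : u * (ξ * T) ≤ b * (ξ * T) := mul_le_mul_of_nonneg_right hub (by positivity)
      linarith
    have h4 : u * ξ * T * Real.exp (u * ξ * T) ≤ u * ξ * T * Real.exp (b * ξ * T) :=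
      mul_le_mul_of_nonneg_left h3 (by positivity)
    linarith
  exact mul_le_mul (hW u) h1 (div_nonneg (by
    have := Real.one_le_exp (x := u * ξ * T) (by positivity)
    linarith) hu.le) hW0

lemma meas_ker {w : ℝ → ℝ} (hmeas : Measurable w) (ξ : ℝ) :
    Measurable (fun q : ℝ × ℝ => w q.2 * ((Real.exp (q.2 * ξ * q.1) - 1) / q.2)) := by
  have h1 : Measurable (fun q : ℝ × ℝ => w q.2) := hmeas.comp measurable_snd
  fun_prop

lemma int_ker {w : ℝ → ℝ} {W b ξ : ℝ} (hmeas : Measurable w) (h0 : ∀ u, 0 ≤ w u)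
    (hW : ∀ u, w u ≤ W) (hξ : 0 < ξ) {T : ℝ} (hT : 0 ≤ T) :
    IntegrableOn (fun u => w u * ((Real.exp (u * ξ * T) - 1) / u)) (Ioo 0 b) := by
  have h1 : IntegrableOn (fun _ : ℝ => W * (ξ * T * Real.exp (b * ξ * T))) (Ioo 0 b) :=
    integrableOn_const (by simp)
  refine h1.mono' ?_ ?_
  · exact ((meas_ker hmeas ξ).comp (measurable_const.prodMk measurable_id :
      Measurable (fun u : ℝ => (T, u)))).aestronglyMeasurable
  · refine (ae_restrict_iff' measurableSet_Ioo).2 (Eventually.of_forall fun u hu => ?_)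
    rw [Real.norm_of_nonneg (ker_nonneg h0 hξ hu.1 hT)]
    exact ker_le h0 hW hξ hu.1 hu.2.le hT

lemma int_prod {w : ℝ → ℝ} {W b ξ : ℝ} (hmeas : Measurable w) (h0 : ∀ u, 0 ≤ w u)
    (hW : ∀ u, w u ≤ W) (hξ : 0 < ξ) {s : ℝ} (hs : b * ξ < s) :
    Integrable (Function.uncurry fun T u : ℝ =>
      w u * ((Real.exp (u * ξ * T) - 1) / u) * Real.exp (-(s * T)))
      ((volume.restrict (Ioi 0)).prod (volume.restrict (Ioo 0 b))) := by
  set c : ℝ := s - b * ξ with hc
  have hc0 : 0 < c := by rw [hc]; linarith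
  have h1 : Integrable (fun T : ℝ => W * (ξ * (2 / c)) * Real.exp (-(c / 2) * T))
      (volume.restrict (Ioi 0)) :=
    (exp_neg_integrableOn_Ioi 0 (by positivity)).const_mul _
  have h2 : Integrable (fun _ : ℝ => (1 : ℝ)) (volume.restrict (Ioo 0 b)) :=
    integrableOn_const (by simp)
  have h3 := h1.mul_prod h2
  refine h3.mono' ?_ ?_
  · have h4 : Measurable (fun q : ℝ × ℝ =>
        w q.2 * ((Real.exp (q.2 * ξ * q.1) - 1) / q.2) * Real.exp (-(s * q.1))) :=
      (meas_ker hmeas ξ).mul (by fun_prop)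
    exact h4.aestronglyMeasurable
  · rw [Measure.prod_restrict]
    refine (ae_restrict_iff' (measurableSet_Ioi.prod measurableSet_Ioo)).2
      (Eventually.of_forall fun q hq => ?_)
    obtain ⟨T, u⟩ := q
    obtain ⟨hT, hu⟩ := hq
    have hT' : 0 < T := hT
    have hu0 : 0 < u := hu.1
    have hub : u < b := hu.2
    show ‖w u * ((Real.exp (u * ξ * T) - 1) / u) * Real.exp (-(s * T))‖ ≤
      W * (ξ * (2 / c)) * Real.exp (-(c / 2) * T) * 1
    rw [Real.norm_of_nonneg (mul_nonneg (ker_nonneg h0 hξ hu0 hT'.le) (Real.exp_pos _).le)]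
    have hW0 : 0 ≤ W := (h0 u).trans (hW u)
    have h5 := ker_le h0 hW hξ hu0 hub.le hT'.le
    have h6 : T ≤ 2 / c * Real.exp (c / 2 * T) := by
      have h7 := Real.add_one_le_exp (c / 2 * T)
      have h8 : c / 2 * T ≤ Real.exp (c / 2 * T) := by linarith
      calc T = 2 / c * (c / 2 * T) := by field_simp
        _ ≤ 2 / c * Real.exp (c / 2 * T) := mul_le_mul_of_nonneg_left h8 (by positivity)
    calc w u * ((Real.exp (u * ξ * T) - 1) / u) * Real.exp (-(s * T))
        ≤ W * (ξ * T * Real.exp (b * ξ * T)) * Real.exp (-(s * T)) :=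
          mul_le_mul_of_nonneg_right h5 (Real.exp_pos _).le
      _ = W * ξ * T * Real.exp (-(c * T)) := by
          have h9 : Real.exp (b * ξ * T) * Real.exp (-(s * T)) = Real.exp (-(c * T)) := by
            rw [← Real.exp_add, hc]
            congr 1
            ring
          rw [← h9]
          ring
      _ ≤ W * ξ * (2 / c * Real.exp (c / 2 * T)) * Real.exp (-(c * T)) := by
          apply mul_le_mul_of_nonneg_right _ (Real.exp_pos _).le
          exact mul_le_mul_of_nonneg_left h6 (by positivity)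
      _ = W * (ξ * (2 / c)) * Real.exp (-(c / 2) * T) * 1 := by
          have h9 : Real.exp (c / 2 * T) * Real.exp (-(c * T)) = Real.exp (-(c / 2) * T) := by
            rw [← Real.exp_add]
            congr 1
            ring
          rw [← h9]
          ring

lemma laplace_one {ξ s u : ℝ} (hu : 0 < u) (hξ : 0 < ξ) (hs : u * ξ < s) (a : ℝ) :
    ∫ T in Ioi (0 : ℝ), a * ((Real.exp (u * ξ * T) - 1) / u) * Real.exp (-(s * T)) =
      a * (ξ / (s * (s - u * ξ))) := by
  have hs0 : 0 < s := lt_trans (by positivity) hs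
  have h1 : (fun T : ℝ => a * ((Real.exp (u * ξ * T) - 1) / u) * Real.exp (-(s * T))) =
      fun T => a / u * Real.exp ((u * ξ - s) * T) - a / u * Real.exp (-s * T) := by
    funext T
    have h2 : Real.exp (u * ξ * T) * Real.exp (-(s * T)) = Real.exp ((u * ξ - s) * T) := by
      rw [← Real.exp_add]
      congr 1
      ring
    have h3 : Real.exp (-(s * T)) = Real.exp (-s * T) := by
      congr 1
      ring
    rw [← h2, ← h3]
    field_simp
  rw [h1, integral_sub, integral_const_mul, integral_const_mul, integral_exp_mul_Ioi (by linarith),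
    integral_exp_mul_Ioi (by linarith)]
  · have h4 : u * ξ - s ≠ 0 := by linarith
    have h5 : s - u * ξ ≠ 0 := by linarith
    rw [mul_zero, mul_zero, Real.exp_zero]
    have h6 : (-1 : ℝ) / (u * ξ - s) = 1 / (s - u * ξ) := by
      rw [div_eq_div_iff h4 h5]
      ring
    have h7 : (-1 : ℝ) / (-s) = 1 / s := by rw [neg_div_neg_eq]
    rw [h6, h7]
    field_simp
    ring
  · exact (integrableOn_exp_mul_Ioi (by linarith) 0).const_mul _
  · exact (integrableOn_exp_mul_Ioi (by linarith) 0).const_mul _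

end Hz

open Hz in
/-- measurability, positivity, the Laplace transform, divergence -/
theorem hz_spec {w : ℝ → ℝ} {W b ξ : ℝ} (hmeas : Measurable w) (h0 : ∀ u, 0 ≤ w u)
    (hW : ∀ u, w u ≤ W) (hb : 0 < b) (hξ : 0 < ξ) :
    Measurable (hz w b ξ) ∧ (∀ T, 0 ≤ T → 0 ≤ hz w b ξ T) ∧
    (∀ s : ℝ, b * ξ < s →
      IntegrableOn (fun T => hz w b ξ T * Real.exp (-(s * T))) (Ioi 0) ∧
      ∫ T in Ioi (0 : ℝ), hz w b ξ T * Real.exp (-(s * T)) =
        ∫ u in Ioo 0 b, w u * (ξ / (s * (s - u * ξ)))) ∧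
    (∀ κ : ℝ, 0 < κ → κ < b → (¬ ∀ᵐ x, x ∈ Ioo κ b → w x = 0) →
      ¬ IntegrableOn (fun T => hz w b ξ T * Real.exp (-(κ * ξ * T))) (Ioi 0)) := by
  refine ⟨?_, ?_, ?_, ?_⟩
  · have h1 := (meas_ker hmeas ξ).stronglyMeasurable.integral_prod_right'
      (ν := volume.restrict (Ioo 0 b))
    exact h1.measurable
  · intro T hT
    exact setIntegral_nonneg measurableSet_Ioo fun u hu => ker_nonneg h0 hξ hu.1 hT
  · intro s hs
    have hI := int_prod hmeas h0 hW hξ hs
    have he : (fun T => hz w b ξ T * Real.exp (-(s * T))) =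
        fun T => ∫ u in Ioo 0 b,
          w u * ((Real.exp (u * ξ * T) - 1) / u) * Real.exp (-(s * T)) := by
      funext T
      rw [integral_mul_const]
      rfl
    constructor
    · rw [he]
      exact hI.integral_prod_left
    · rw [he, integral_integral_swap hI]
      refine setIntegral_congr_fun measurableSet_Ioo fun u hu => ?_
      refine laplace_one hu.1 hξ ?_ _
      have : u * ξ < b * ξ := mul_lt_mul_of_pos_right hu.2 hξ
      linarith
  · intro κ hκ hκb hne hint
    have hW0 : 0 ≤ W := (h0 0).trans (hW 0)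
    have hwi : IntegrableOn w (Ioo κ b) := by
      have h1 : IntegrableOn (fun _ : ℝ => W) (Ioo κ b) := integrableOn_const (by simp)
      refine h1.mono' hmeas.aestronglyMeasurable (Eventually.of_forall fun u => ?_)
      rw [Real.norm_of_nonneg (h0 u)]
      exact hW u
    set I : ℝ := ∫ u in Ioo κ b, w u with hIdef
    have hI0 : 0 < I := by
      have h1 : 0 ≤ I := setIntegral_nonneg measurableSet_Ioo fun u _ => h0 u
      rcases h1.eq_or_lt with h2 | h2
      · exfalso
        apply hne
        have h3 := (setIntegral_eq_zero_iff_of_nonneg_ae (Eventually.of_forall h0) hwi).1 h2.symm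
        exact (ae_restrict_iff' measurableSet_Ioo).1 h3
      · exact h2
    have hlow : ∀ T : ℝ, 0 ≤ T → I * ((Real.exp (κ * ξ * T) - 1) / b) ≤ hz w b ξ T := by
      intro T hT
      have h1 : IntegrableOn (fun u => w u * ((Real.exp (u * ξ * T) - 1) / u)) (Ioo 0 b) :=
        int_ker hmeas h0 hW hξ hT
      have h2 : Ioo κ b ⊆ Ioo 0 b := Ioo_subset_Ioo_left hκ.le
      have h3 : ∫ u in Ioo κ b, w u * ((Real.exp (u * ξ * T) - 1) / u) ≤ hz w b ξ T := by
        refine setIntegral_mono_set h1 ?_ h2.eventuallyLE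
        exact (ae_restrict_iff' measurableSet_Ioo).2
          (Eventually.of_forall fun u hu => ker_nonneg h0 hξ hu.1 hT)
      refine le_trans ?_ h3
      rw [hIdef, ← integral_mul_const]
      refine setIntegral_mono_on (hwi.mul_const _) (h1.mono_set h2) measurableSet_Ioo
        fun u hu => ?_
      apply mul_le_mul_of_nonneg_left _ (h0 u)
      have hu0 : 0 < u := hκ.trans hu.1
      have h4 : Real.exp (κ * ξ * T) ≤ Real.exp (u * ξ * T) := by
        apply Real.exp_le_exp.2
        have : κ * (ξ * T) ≤ u * (ξ * T) := mul_le_mul_of_nonneg_right hu.1.le (by positivity)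
        linarith
      have h5 : 1 ≤ Real.exp (κ * ξ * T) := Real.one_le_exp (by positivity)
      exact div_le_div₀ (by linarith) (by linarith) hu0 hu.2.le
    -- comparison with a constant
    set T1 : ℝ := 1 / (κ * ξ) with hT1
    have hT10 : 0 < T1 := by positivity
    have hconst : IntegrableOn (fun _ : ℝ => I / (2 * b)) (Ioi T1) := by
      refine (hint.mono_set (Ioi_subset_Ioi hT10.le)).mono' aestronglyMeasurable_const ?_
      refine (ae_restrict_iff' measurableSet_Ioi).2 (Eventually.of_forall fun T hT => ?_)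
      have hT' : T1 < T := hT
      have hT0 : 0 < T := hT10.trans hT'
      rw [Real.norm_of_nonneg (by positivity)]
      have h1 := hlow T hT0.le
      have h2 : Real.exp (κ * ξ * T) * Real.exp (-(κ * ξ * T)) = 1 := by
        rw [← Real.exp_add]
        simp
      have h3 : Real.exp (-(κ * ξ * T)) ≤ 1 / 2 := by
        have h4 : 1 ≤ κ * ξ * T := by
          have h5 : κ * ξ * T1 = 1 := by
            rw [hT1]
            field_simp
          have h6 : κ * ξ * T1 ≤ κ * ξ * T := mul_le_mul_of_nonneg_left hT'.le (by positivity)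
          linarith
        have h7 := Real.add_one_le_exp (κ * ξ * T)
        have h8 : 0 < Real.exp (-(κ * ξ * T)) := Real.exp_pos _
        nlinarith
      have h9 : I * ((Real.exp (κ * ξ * T) - 1) / b) * Real.exp (-(κ * ξ * T)) ≤
          hz w b ξ T * Real.exp (-(κ * ξ * T)) :=
        mul_le_mul_of_nonneg_right h1 (Real.exp_pos _).le
      refine le_trans ?_ h9
      have h10 : I * ((Real.exp (κ * ξ * T) - 1) / b) * Real.exp (-(κ * ξ * T)) =
          I / b * (1 - Real.exp (-(κ * ξ * T))) := by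
        have : I * ((Real.exp (κ * ξ * T) - 1) / b) * Real.exp (-(κ * ξ * T)) =
          I / b * (Real.exp (κ * ξ * T) * Real.exp (-(κ * ξ * T)) - Real.exp (-(κ * ξ * T))) := by
          ring
        rw [this, h2]
      rw [h10]
      have h11 : I / (2 * b) = I / b * (1 / 2) := by
        field_simp
      rw [h11]
      apply mul_le_mul_of_nonneg_left _ (by positivity)
      linarith
    rw [integrableOn_const_iff] at hconst
    rcases hconst with h | h
    · have : 0 < I / (2 * b) := by positivity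
      simp at h
      rcases h with h | h
      · exact hI0.ne' h
      · exact hb.ne' h
    · rw [Real.volume_Ioi] at h
      exact absurd h (lt_irrefl _)

end Pool.Agent.TH942.OS
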