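import Pool.Agent.H21.L.R_seed8.TH942.LS.Abel

/-!
# Zero-free half planes from the convergence of the Laplace transform
-/

set_option autoImplicit false

open MeasureTheory Filter Topology Set Complex

namespace Pool.Agent.TH942.OS

open Pool.Agent.TH942.LS

variable {lam c : ℕ → ℝ} {δ σ W b θ : ℝ} {w : ℝ → ℝ} {Ψ Kf : ℂ → ℂ}

/-- a Laplace integral is holomorphic in the half plane of absolute convergence -/
theorem lap_diff {f : ℝ → ℝ} (hf : AEStronglyMeasurable f (volume.restrict (Ioi 0))) {α : ℝ}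
    (hI : ∀ x : ℝ, α < x → IntegrableOn (fun T => f T * Real.exp (-(x * T))) (Ioi 0)) {t : ℂ}
    (ht : α < t.re) :
    DifferentiableAt ℂ (fun t : ℂ => ∫ T in Ioi (0 : ℝ), exp (-(t * T)) * (f T : ℂ)) t := by
  set x : ℝ := (α + t.re) / 2 with hx
  have hx1 : α < x := by rw [hx]; linarith
  have hx2 : x < t.re := by rw [hx]; linarith
  set O : Set ℂ := {v | x < v.re} with hO
  have hOo : IsOpen O := isOpen_lt continuous_const Complex.continuous_re
  have h := Pool.Agent.HP.differentiableOn_integral (volume.restrict (Ioi (0 : ℝ)))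
    (fun (T : ℝ) (v : ℂ) => if 0 < T then exp (-(v * T)) * (f T : ℂ) else 0) O hOo
    (fun v _ => ?_) (fun T => ?_) (fun T => |f T * Real.exp (-(x * T))|) ?_
    (fun T v hv => ?_)
  · have h1 : (fun v : ℂ => ∫ T in Ioi (0 : ℝ),
        (if 0 < T then exp (-(v * T)) * (f T : ℂ) else 0)) =
        fun v : ℂ => ∫ T in Ioi (0 : ℝ), exp (-(v * T)) * (f T : ℂ) := by
      funext v
      refine setIntegral_congr_fun measurableSet_Ioi fun T hT => ?_
      rw [if_pos (show 0 < T from hT)]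
    rw [h1] at h
    exact h.differentiableAt (hOo.mem_nhds (show x < t.re from hx2))
  · have h1 : AEStronglyMeasurable (fun T : ℝ => exp (-(v * T)) * (f T : ℂ))
        (volume.restrict (Ioi 0)) :=
      (Continuous.aestronglyMeasurable (by fun_prop)).mul
        (Complex.continuous_ofReal.comp_aestronglyMeasurable hf)
    refine h1.congr ?_
    filter_upwards [ae_restrict_mem measurableSet_Ioi] with T hT
    rw [if_pos (show 0 < T from hT)]
  · by_cases hT : 0 < T
    · simp only [hT, if_true]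
      exact Differentiable.differentiableOn (by fun_prop)
    · simp only [hT, if_false]
      exact differentiableOn_const _
  · exact (hI x hx1).norm
  · split_ifs with hT
    · have hv' : x < v.re := hv
      rw [norm_mul, Complex.norm_exp, Complex.norm_real, Real.norm_eq_abs, abs_mul,
        abs_of_pos (Real.exp_pos _)]
      have e1 : (-(v * (T : ℂ))).re = -(v.re * T) := by simp
      rw [e1, mul_comm |f T|]
      refine mul_le_mul_of_nonneg_right (Real.exp_le_exp.2 ?_) (abs_nonneg _)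
      nlinarith
    · rw [norm_zero]
      exact abs_nonneg _

/-- If the Laplace transform of the mean with the weight `w` is holomorphic for `Re t > b θ`,
where `b` is the top of the support of `w`, then `Ψ` has no zeros with real part larger
than `θ`. -/
theorem no_zeros' (D : Dat lam c δ σ) (hw : Wt w W b) (H : Cont lam c σ θ Ψ Kf)
    (htop : ∀ κ, κ < b → ¬ ∀ᵐ x, x ∈ Ioo κ b → w x = 0)
    (hL : ∀ t : ℂ, b * θ < t.re → DifferentiableAt ℂ (L lam c w) t)
    {s : ℂ} (hs : θ < s.re) : Ψ s ≠ 0 := by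
  intro h0
  obtain ⟨s₁, hs1, h1, hout⟩ := outermost H hs h0
  obtain ⟨κ, η, V, hκ, hκ1, hη, hη1, hV, hc1, hc2⟩ := exists_cone H D.σ0 hs1 hout
  obtain ⟨m, E, C, hm, hEd, hEeq, hC, hEb⟩ := exists_E D H hs1 h1 hκ hη1 hV hc1 hc2
  have hb := hw.b0
  have hpos : 0 < s₁.re := H.θ0.trans_lt hs1
  have hs0 : s₁ ≠ 0 := by
    intro h
    rw [h] at hpos
    simp at hpos
  have hm0 : (m : ℂ) ≠ 0 := by exact_mod_cast hm.ne'
  set O : Set ℂ := ocone (b * κ) η with hO
  have hOo : IsOpen O := ocone_open _ _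
  -- `L` on the cone
  have hLd : ∀ z ∈ O, DifferentiableAt ℂ (fun z => L lam c w (z * s₁)) z := by
    intro z hz
    have h2 : b * θ < (z * s₁).re := by
      have hbc : (b : ℂ) ≠ 0 := by exact_mod_cast hb.ne'
      have h3 : z / b ∈ cone κ η := by
        constructor
        · rw [Complex.div_ofReal_re, le_div_iff₀ hb]
          linarith [hz.1]
        · rw [Complex.div_ofReal_im, Complex.div_ofReal_re, abs_div, abs_of_pos hb, ← mul_div_assoc]
          exact div_le_div_of_nonneg_right hz.2.le hb.le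
      have h4 := (hc1 _ h3).1
      have h5 : z / b * s₁ = (z * s₁) / b := by ring
      rw [h5, Complex.div_ofReal_re, lt_div_iff₀ hb] at h4
      linarith
    exact DifferentiableAt.comp (f := fun z : ℂ => z * s₁) z (hL _ h2) (by fun_prop)
  have hEE := EE_diff hw hκ hEd hC hEb
  set g : ℂ → ℂ := fun z => s₁ * z / m * (L lam c w (z * s₁) - EE w b E z) with hg
  have hgd : ∀ z ∈ O, DifferentiableAt ℂ g z := by
    intro z hz
    have h2 := hLd z hz
    have h3 := hEE.differentiableAt (hOo.mem_nhds hz)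
    have h4 : DifferentiableAt ℂ (fun z : ℂ => s₁ * z / m) z := by fun_prop
    exact h4.mul (h2.sub h3)
  -- far away
  have hfar : ∀ z ∈ O, z.im ≠ 0 → b * σ < (z * s₁).re → cau w b z = g z := by
    intro z hz him hre
    have hz0 : z ≠ 0 := by
      intro h
      rw [h] at him
      simp at him
    have h2 := laplace D hw hre
    have h3 : ∀ u ∈ Ioo 0 b, (w u : ℂ) * (((u ^ 2)⁻¹ : ℝ) * P lam c (z * s₁ / u)) =
        (w u : ℂ) * (((u ^ 2)⁻¹ : ℝ) * E (z / u)) + m / (s₁ * z) * ((w u : ℂ) / (z - u)) := by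
      intro u hu
      have hu0 := hu.1
      have huc : (u : ℂ) ≠ 0 := by exact_mod_cast hu0.ne'
      have h4 : σ < (z * s₁ / u).re := by
        rw [Complex.div_ofReal_re, lt_div_iff₀ hu0]
        have := mul_lt_mul_of_pos_left hu.2 D.σ0
        linarith
      have h5 : z * s₁ / u = z / u * s₁ := by ring
      have h6 := sub_ne him u
      have h7 : z / u ≠ 1 := by
        intro h
        rw [div_eq_one_iff_eq huc] at h
        exact h6 (sub_eq_zero.2 h)
      have h8 : z / u - 1 ≠ 0 := sub_ne_zero.2 h7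
      rw [H.eq _ h4, h5, hEeq _ h7]
      have h9 : (m : ℂ) / (s₁ * (z / u * (z / u - 1))) = m * u ^ 2 / (s₁ * z * (z - u)) := by
        have : z / u - 1 = (z - u) / u := by field_simp
        rw [this]
        field_simp
      rw [h9]
      push_cast
      field_simp
      ring
    have hi1 : Integrable (fun u : ℝ => (w u : ℂ) * (((u ^ 2)⁻¹ : ℝ) * E (z / u)))
        (volume.restrict (Ioo 0 b)) := by
      obtain ⟨e1, e2⟩ := EE_int hw hκ hEd hC hEb hz
      refine Integrable.mono' (integrable_const (W * C / (b * κ) ^ 2)) e2 ?_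
      filter_upwards [ae_restrict_mem measurableSet_Ioo] with u hu
      exact e1 u hu
    have hi2 := cau_integrable (b := b) hw.meas hw.bd him
    rw [setIntegral_congr_fun measurableSet_Ioo h3, integral_add hi1 (hi2.const_mul _),
      integral_const_mul] at h2
    change L lam c w (z * s₁) = EE w b E z + m / (s₁ * z) * cau w b z at h2
    rw [hg]
    simp only
    rw [h2]
    field_simp
    ring
  -- the identity theorem on a half cone
  have hid : ∀ Q : Set ℂ, Q ⊆ O → IsOpen Q → Convex ℝ Q → (∀ z ∈ Q, z.im ≠ 0) →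
      (∃ z ∈ Q, b * σ < (z * s₁).re) → ∀ z ∈ Q, cau w b z = g z := by
    intro Q hQO hQo hQc hQim hQf
    obtain ⟨z₀, hz₀, hz₀'⟩ := hQf
    have a1 : AnalyticOnNhd ℂ (cau w b) Q := by
      refine DifferentiableOn.analyticOnNhd (fun z hz => ?_) hQo
      exact (cau_diff hw.meas hw.bd (hQim z hz)).differentiableWithinAt
    have a2 : AnalyticOnNhd ℂ g Q := by
      refine DifferentiableOn.analyticOnNhd (fun z hz => ?_) hQo
      exact (hgd z (hQO hz)).differentiableWithinAt
    have a3 : cau w b =ᶠ[𝓝 z₀] g := by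
      have ho : IsOpen {z : ℂ | b * σ < (z * s₁).re} := isOpen_lt continuous_const (by fun_prop)
      filter_upwards [hQo.mem_nhds hz₀, ho.mem_nhds hz₀'] with z e1 e2
      exact hfar z (hQO e1) (hQim z e1) e2
    exact a1.eqOn_of_preconnected_of_eventuallyEq a2 hQc.isPreconnected hz₀ a3
  -- far points
  have hfp : ∀ e : ℝ, |e| < η → ∃ x : ℝ, b * κ < x ∧ 0 < x ∧
      ((x : ℂ) + (e * x : ℝ) * I) ∈ O ∧ b * σ < (((x : ℂ) + (e * x : ℝ) * I) * s₁).re := by
    intro e he
    -- the point `1 + e I` scaled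
    have h2 : ((1 : ℂ) + e * I) ∈ cone κ η := by
      constructor
      · simp; linarith
      · simp; linarith
    -- positivity of `Re ((1 + e I) s₁)`
    have h3 : 0 < s₁.re - e * s₁.im := by
      have h4 := (hc1 _ h2).1
      have h5 : (((1 : ℂ) + e * I) * s₁).re = s₁.re - e * s₁.im := by simp
      rw [h5] at h4
      exact H.θ0.trans_lt h4
    set X : ℝ := max (b * κ + 1) (b * σ / (s₁.re - e * s₁.im) + 1) with hX
    have hX1 : b * κ + 1 ≤ X := le_max_left _ _
    have hX2 : b * σ / (s₁.re - e * s₁.im) + 1 ≤ X := le_max_right _ _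
    have hbκ : 0 < b * κ := by positivity
    have hX0 : 0 < X := by linarith
    refine ⟨X, by linarith, hX0, ?_, ?_⟩
    · constructor
      · simp; linarith
      · have e1 : ((X : ℂ) + (e * X : ℝ) * I).im = e * X := by simp
        have e2 : ((X : ℂ) + (e * X : ℝ) * I).re = X := by simp
        rw [e1, e2, abs_mul, abs_of_pos hX0]
        exact mul_lt_mul_of_pos_right he hX0
    · have e1 : (((X : ℂ) + (e * X : ℝ) * I) * s₁).re = X * (s₁.re - e * s₁.im) := by
        simp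
        ring
      rw [e1]
      have e2 : b * σ / (s₁.re - e * s₁.im) < X := by linarith
      rwa [div_lt_iff₀ h3] at e2
  have hup : ∀ z ∈ O, 0 < z.im → cau w b z = g z := by
    intro z hz him
    refine hid (O ∩ {z | 0 < z.im}) inter_subset_left
      (hOo.inter (isOpen_lt continuous_const Complex.continuous_im)) ?_ (fun z hz => hz.2.ne') ?_ z
      ⟨hz, him⟩
    · have e1 : O ∩ {z : ℂ | 0 < z.im} = {z : ℂ | b * κ < z.re} ∩ ({z : ℂ | 0 < z.im} ∩
          {z : ℂ | 0 < η * z.re - z.im}) := by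
        ext v
        simp only [hO, ocone, mem_inter_iff, mem_ofPred_eq]
        constructor
        · rintro ⟨⟨h2, h3⟩, h4⟩
          rw [abs_of_pos h4] at h3
          exact ⟨h2, h4, by linarith⟩
        · rintro ⟨h2, h4, h3⟩
          refine ⟨⟨h2, ?_⟩, h4⟩
          rw [abs_of_pos h4]
          linarith
      rw [e1]
      refine (convex_halfSpace_re_gt _).inter ((convex_halfSpace_im_gt 0).inter ?_)
      have hl : IsLinearMap ℝ fun z : ℂ => η * z.re - z.im := by
        constructor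
        · intro x y; simp; ring
        · intro c x; simp; ring
      exact convex_halfSpace_gt hl 0
    · obtain ⟨x, hx1, hx0, hx2, hx3⟩ := hfp (η / 2) (by rw [abs_of_pos (by positivity)]; linarith)
      refine ⟨_, ⟨hx2, ?_⟩, hx3⟩
      simp
      positivity
  have hdown : ∀ z ∈ O, z.im < 0 → cau w b z = g z := by
    intro z hz him
    refine hid (O ∩ {z | z.im < 0}) inter_subset_left
      (hOo.inter (isOpen_lt Complex.continuous_im continuous_const)) ?_ (fun z hz => hz.2.ne) ?_ z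
      ⟨hz, him⟩
    · have e1 : O ∩ {z : ℂ | z.im < 0} = {z : ℂ | b * κ < z.re} ∩ ({z : ℂ | z.im < 0} ∩
          {z : ℂ | 0 < η * z.re + z.im}) := by
        ext v
        simp only [hO, ocone, mem_inter_iff, mem_ofPred_eq]
        constructor
        · rintro ⟨⟨h2, h3⟩, h4⟩
          rw [abs_of_neg h4] at h3
          exact ⟨h2, h4, by linarith⟩
        · rintro ⟨h2, h4, h3⟩
          refine ⟨⟨h2, ?_⟩, h4⟩
          rw [abs_of_neg h4]
          linarith
      rw [e1]
      refine (convex_halfSpace_re_gt _).inter ((convex_halfSpace_im_lt 0).inter ?_)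
      have hl : IsLinearMap ℝ fun z : ℂ => η * z.re + z.im := by
        constructor
        · intro x y; simp; ring
        · intro c x; simp; ring
      exact convex_halfSpace_gt hl 0
    · obtain ⟨x, hx1, hx0, hx2, hx3⟩ := hfp (-(η / 2)) (by
        rw [abs_neg, abs_of_pos (by positivity)]; linarith)
      refine ⟨_, ⟨hx2, ?_⟩, hx3⟩
      simp
      positivity
  -- the jump
  have hκb : b * κ < b := by nlinarith
  refine htop (b * κ) hκb (jump hw.meas hw.bd (by positivity) hOo (g := g)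
    (fun z hz => (hgd z hz).continuousAt.continuousWithinAt) (fun x hx1 hx2 => ?_)
    fun z hz him => ?_)
  · constructor
    · simpa using hx1
    · have : 0 < x := lt_trans (by positivity) hx1
      simp
      positivity
  · rcases lt_or_gt_of_ne him with h2 | h2
    · exact hdown z hz h2
    · exact hup z hz h2

/-- **the Laplace transform on the real axis** -/
theorem L_real' (D : Dat lam c δ σ) (hw : Wt w W b) (H : Cont lam c σ 0 Ψ Kf)
    (hne : ∀ s : ℂ, 0 < s.re → Ψ s ≠ 0)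
    (hL : ∀ t : ℂ, 0 < t.re → DifferentiableAt ℂ (L lam c w) t)
    {t : ℝ} (ht : 0 < t) : L lam c w t = EE w b (Qf Ψ Kf) t := by
  have hb := hw.b0
  set κ : ℝ := t / (2 * b) with hκ
  have hκ0 : 0 < κ := by positivity
  obtain ⟨C, hC, hCb⟩ := Qf_bound D H hne hκ0
  have hEd : ∀ v ∈ cone κ 1, DifferentiableAt ℂ (Qf Ψ Kf) v := fun v hv =>
    Qf_diff H hne (cone_norm hκ0 le_rfl hv).2
  have hEE := EE_diff hw hκ0 hEd hC hCb
  have hOo := ocone_open (b * κ) 1
  have a1 : AnalyticOnNhd ℂ (L lam c w) (ocone (b * κ) 1) := by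
    refine DifferentiableOn.analyticOnNhd (fun z hz => ?_) hOo
    have hz0 : 0 < z.re := lt_trans (by positivity) hz.1
    exact (hL z hz0).differentiableWithinAt
  have a2 : AnalyticOnNhd ℂ (EE w b (Qf Ψ Kf)) (ocone (b * κ) 1) := hEE.analyticOnNhd hOo
  -- a far point
  set X : ℝ := max (b * κ + 1) (b * σ + 1) with hX
  have hX1 : b * κ + 1 ≤ X := le_max_left _ _
  have hX2 : b * σ + 1 ≤ X := le_max_right _ _
  have hbκ : 0 < b * κ := by positivity
  have hXm : (X : ℂ) ∈ ocone (b * κ) 1 := by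
    constructor
    · simp; linarith
    · simp; linarith
  have a3 : L lam c w =ᶠ[𝓝 (X : ℂ)] EE w b (Qf Ψ Kf) := by
    have ho : IsOpen {z : ℂ | b * σ < z.re} := isOpen_lt continuous_const Complex.continuous_re
    filter_upwards [ho.mem_nhds (show b * σ < (X : ℂ).re by simp; linarith)] with z hz
    have hz' : b * σ < z.re := hz
    rw [laplace D hw hz']
    unfold EE
    refine setIntegral_congr_fun measurableSet_Ioo fun u hu => ?_
    have hu0 := hu.1
    have h4 : σ < (z / u).re := by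
      rw [Complex.div_ofReal_re, lt_div_iff₀ hu0]
      have := mul_lt_mul_of_pos_left hu.2 D.σ0
      linarith
    rw [H.eq _ h4]
    rfl
  have h := a1.eqOn_of_preconnected_of_eventuallyEq a2 (ocone_convex _).isPreconnected hXm a3
  refine h ?_
  constructor
  · have : b * κ = t / 2 := by rw [hκ]; field_simp
    rw [this]
    simp; linarith
  · simp; linarith

/-- the logarithmic derivative near a point -/
theorem local_form' (H : Cont lam c σ θ Ψ Kf) {s₁ : ℂ} (hs : θ < s₁.re) :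
    ∃ (m : ℕ) (h : ℂ → ℂ), (Ψ s₁ = 0 → 0 < m) ∧ AnalyticAt ℂ h s₁ ∧ h s₁ ≠ 0 ∧
      ∀ᶠ s in 𝓝[≠] s₁, deriv Ψ s / Ψ s = m / (s - s₁) + deriv h s / h s := by
  have ha := H.analytic hs
  have htop : analyticOrderAt Ψ s₁ ≠ ⊤ := by
    rw [Ne, analyticOrderAt_eq_top]
    intro h
    have h1 := isolated H hs
    have h2 : ∀ᶠ s in 𝓝[≠] s₁, Ψ s = 0 := h.filter_mono nhdsWithin_le_nhds
    obtain ⟨s, h3, h4⟩ := (h1.and h2).exists
    exact h3 h4
  obtain ⟨m, hm⟩ : ∃ m : ℕ, analyticOrderAt Ψ s₁ = m := by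
    cases hq : analyticOrderAt Ψ s₁ with
    | top => exact absurd hq htop
    | coe n => exact ⟨n, rfl⟩
  obtain ⟨h, hh, hh0, heq⟩ := ha.analyticOrderAt_eq_natCast.1 hm
  have hm0 : Ψ s₁ = 0 → 0 < m := by
    intro h0
    rcases Nat.eq_zero_or_pos m with h1 | h1
    · exfalso
      have h2 := heq.self_of_nhds
      rw [h1, pow_zero, one_smul] at h2
      rw [h2] at h0
      exact hh0 h0
    · exact h1
  refine ⟨m, h, hm0, hh, hh0, ?_⟩
  have h1 : ∀ᶠ s in 𝓝 s₁, Ψ =ᶠ[𝓝 s] fun s => (s - s₁) ^ m • h s := heq.eventually_nhds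
  have h2 : ∀ᶠ s in 𝓝 s₁, DifferentiableAt ℂ h s := hh.eventually_analyticAt.mono fun s hs =>
    hs.differentiableAt
  have h3 : ∀ᶠ s in 𝓝 s₁, h s ≠ 0 := hh.continuousAt.eventually_ne hh0
  filter_upwards [h1.filter_mono nhdsWithin_le_nhds, h2.filter_mono nhdsWithin_le_nhds,
    h3.filter_mono nhdsWithin_le_nhds, self_mem_nhdsWithin] with s e1 e2 e3 e4
  have hss : s - s₁ ≠ 0 := sub_ne_zero.2 e4
  rw [e1.deriv_eq, e1.eq_of_nhds]
  have e5 : HasDerivAt (fun s => (s - s₁) ^ m • h s)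
      ((m * (s - s₁) ^ (m - 1) * 1) * h s + (s - s₁) ^ m * deriv h s) s := by
    have e6 : HasDerivAt (fun s : ℂ => (s - s₁) ^ m) (m * (s - s₁) ^ (m - 1) * 1) s :=
      ((hasDerivAt_id s).sub_const s₁).pow m
    exact e6.mul e2.hasDerivAt
  rw [e5.deriv, smul_eq_mul]
  rcases Nat.eq_zero_or_pos m with h0 | h0
  · rw [h0]
    simp
  have e7 : (s - s₁) ^ m = (s - s₁) ^ (m - 1) * (s - s₁) := by
    rw [← pow_succ]
    congr 1
    omega
  have e8 : (s - s₁) ^ (m - 1) ≠ 0 := pow_ne_zero _ hss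
  rw [e7]
  field_simp

/-- **the remainder** -/
theorem exists_E' (D : Dat lam c δ σ) (H : Cont lam c σ θ Ψ Kf) {s₁ : ℂ} (hs : θ < s₁.re)
    {κ η V : ℝ} (hκ : 0 < κ) (hη1 : η ≤ 1) (hV : 2 ≤ V)
    (h1 : ∀ v ∈ cone κ η, θ < (v * s₁).re ∧ (v ≠ 1 → Ψ (v * s₁) ≠ 0))
    (h2 : ∀ v ∈ cone κ η, V ≤ v.re → σ + 1 ≤ (v * s₁).re ∧ v.re * s₁.re / 2 ≤ (v * s₁).re) :
    ∃ (m : ℕ) (E : ℂ → ℂ) (C : ℝ), (Ψ s₁ = 0 → 0 < m) ∧ (∀ v ∈ cone κ η, DifferentiableAt ℂ E v) ∧
      (∀ v, v ≠ 1 → E v = deriv Ψ (v * s₁) / Ψ (v * s₁) - Kf (v * s₁) - m / (s₁ * (v * (v - 1)))) ∧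
      0 ≤ C ∧ ∀ v ∈ cone κ η, ‖E v‖ ≤ C / ‖v‖ ^ 2 := by
  have hpos : 0 < s₁.re := H.θ0.trans_lt hs
  have hs0 : s₁ ≠ 0 := by
    intro h
    rw [h] at hpos
    simp at hpos
  obtain ⟨m, h, hm0, hh, hh0, hloc⟩ := local_form' H hs
  have hm : Differentiable ℂ fun v : ℂ => v * s₁ := by fun_prop
  set e₀ : ℂ := deriv h s₁ / h s₁ - Kf s₁ + m / s₁ with he₀
  set E : ℂ → ℂ := fun v => if v = 1 then e₀ else
    deriv Ψ (v * s₁) / Ψ (v * s₁) - Kf (v * s₁) - m / (s₁ * (v * (v - 1))) with hE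
  have hEne : ∀ v, v ≠ 1 → E v = deriv Ψ (v * s₁) / Ψ (v * s₁) - Kf (v * s₁) -
      m / (s₁ * (v * (v - 1))) := fun v hv => by rw [hE]; simp only; rw [if_neg hv]
  have hv0 : ∀ v ∈ cone κ η, v ≠ 0 := by
    intro v hv h3
    have := hv.1
    rw [h3] at this
    simp at this
    linarith
  have hdiff : ∀ v ∈ cone κ η, DifferentiableAt ℂ E v := by
    intro v hv
    obtain ⟨e1, e2⟩ := h1 v hv
    by_cases hv1 : v = 1
    · -- the removable singularity
      rw [hv1]
      have e3 : ∀ᶠ s in 𝓝 s₁, s ≠ s₁ → deriv Ψ s / Ψ s = m / (s - s₁) + deriv h s / h s := by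
        rwa [eventually_nhdsWithin_iff] at hloc
      have e4 : Tendsto (fun v : ℂ => v * s₁) (𝓝 1) (𝓝 s₁) := by
        have := hm.continuous.tendsto 1
        simpa using this
      have e5 : ∀ᶠ v : ℂ in 𝓝 1, v ≠ 0 := eventually_ne_nhds one_ne_zero
      have e6 : E =ᶠ[𝓝 1] fun v => deriv h (v * s₁) / h (v * s₁) - Kf (v * s₁) + m / (s₁ * v) := by
        filter_upwards [e4.eventually e3, e5] with x h3 h4
        by_cases hx : x = 1
        · rw [hx, hE]
          simp only [if_true]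
          rw [he₀, one_mul, mul_one]
        · have h5 : x * s₁ ≠ s₁ := fun h6 => hx (mul_right_cancel₀ hs0 (by rw [h6, one_mul]))
          rw [hEne x hx, h3 h5]
          have h6 : x - 1 ≠ 0 := sub_ne_zero.2 hx
          have h7 : x * s₁ - s₁ = s₁ * (x - 1) := by ring
          rw [h7]
          field_simp
          ring
      have hd1 : DifferentiableAt ℂ (fun v : ℂ => deriv h (v * s₁)) 1 := by
        have e7 : DifferentiableAt ℂ (deriv h) (1 * s₁) := by
          rw [one_mul]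
          exact hh.deriv.differentiableAt
        exact DifferentiableAt.comp (f := fun v : ℂ => v * s₁) 1 e7 (hm 1)
      have hd2 : DifferentiableAt ℂ (fun v : ℂ => h (v * s₁)) 1 := by
        have e7 : DifferentiableAt ℂ h (1 * s₁) := by
          rw [one_mul]
          exact hh.differentiableAt
        exact DifferentiableAt.comp (f := fun v : ℂ => v * s₁) 1 e7 (hm 1)
      have hd3 : DifferentiableAt ℂ (fun v : ℂ => Kf (v * s₁)) 1 := by
        have e7 : DifferentiableAt ℂ Kf (1 * s₁) := by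
          rw [one_mul]
          exact H.Kd _ hs
        exact DifferentiableAt.comp (f := fun v : ℂ => v * s₁) 1 e7 (hm 1)
      have hd4 : DifferentiableAt ℂ (fun v : ℂ => (m : ℂ) / (s₁ * v)) 1 :=
        DifferentiableAt.div (by fun_prop) (by fun_prop) (by simpa using hs0)
      refine DifferentiableAt.congr_of_eventuallyEq ?_ e6
      exact ((hd1.div hd2 (by rw [one_mul]; exact hh0)).sub hd3).add hd4
    · have e3 := e2 hv1
      have e4 : ∀ᶠ x : ℂ in 𝓝 v, x ≠ 1 := eventually_ne_nhds hv1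
      have e5 : E =ᶠ[𝓝 v] fun v => deriv Ψ (v * s₁) / Ψ (v * s₁) - Kf (v * s₁) -
          m / (s₁ * (v * (v - 1))) := e4.mono fun x hx => hEne x hx
      refine DifferentiableAt.congr_of_eventuallyEq ?_ e5
      have hd1 : DifferentiableAt ℂ (fun v : ℂ => deriv Ψ (v * s₁)) v :=
        DifferentiableAt.comp (f := fun v : ℂ => v * s₁) v
          (H.analytic e1).deriv.differentiableAt (hm v)
      have hd2 : DifferentiableAt ℂ (fun v : ℂ => Ψ (v * s₁)) v :=
        DifferentiableAt.comp (f := fun v : ℂ => v * s₁) v (H.Ψd _ e1) (hm v)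
      have hd3 : DifferentiableAt ℂ (fun v : ℂ => Kf (v * s₁)) v :=
        DifferentiableAt.comp (f := fun v : ℂ => v * s₁) v (H.Kd _ e1) (hm v)
      have hd4 : DifferentiableAt ℂ (fun v : ℂ => (m : ℂ) / (s₁ * (v * (v - 1)))) v :=
        DifferentiableAt.div (by fun_prop) (by fun_prop)
          (mul_ne_zero hs0 (mul_ne_zero (hv0 v hv) (sub_ne_zero.2 hv1)))
      exact ((hd1.div hd2 e3).sub hd3).sub hd4
  -- the bound
  have hnorm : ∀ v ∈ cone κ η, ‖v‖ ≤ 2 * v.re ∧ 0 < v.re := by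
    intro v hv
    have e1 : 0 < v.re := hκ.trans_le hv.1
    have e2 := Complex.norm_le_abs_re_add_abs_im v
    rw [abs_of_pos e1] at e2
    have e3 : |v.im| ≤ v.re := hv.2.trans (by nlinarith)
    exact ⟨by linarith, e1⟩
  obtain ⟨M, hM⟩ : ∃ M : ℝ, ∀ v ∈ cone κ η, v.re ≤ V → ‖E v‖ ≤ M := by
    have hcl : IsClosed (cone κ η ∩ {v : ℂ | v.re ≤ V}) := by
      have e1 : IsClosed {v : ℂ | κ ≤ v.re} := isClosed_le continuous_const Complex.continuous_re
      have e2 : IsClosed {v : ℂ | |v.im| ≤ η * v.re} := isClosed_le (by fun_prop) (by fun_prop)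
      have e3 : IsClosed {v : ℂ | v.re ≤ V} := isClosed_le Complex.continuous_re continuous_const
      exact (e1.inter e2).inter e3
    have hcomp : IsCompact (cone κ η ∩ {v : ℂ | v.re ≤ V}) := by
      refine (isCompact_closedBall (0 : ℂ) (2 * V)).of_isClosed_subset hcl ?_
      rintro v ⟨hv, hv2⟩
      rw [Metric.mem_closedBall, dist_zero_right]
      have := (hnorm v hv).1
      have hv3 : v.re ≤ V := hv2
      linarith
    have hcont : ContinuousOn E (cone κ η ∩ {v : ℂ | v.re ≤ V}) := fun v hv =>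
      (hdiff v hv.1).continuousAt.continuousWithinAt
    obtain ⟨M, hM⟩ := hcomp.exists_bound_of_continuousOn hcont
    exact ⟨M, fun v hv hv2 => hM v ⟨hv, hv2⟩⟩
  set S₀ : ℝ := ∑' n, |c n| * Real.exp (-(σ * lam n)) with hSg
  have hSg0 : 0 ≤ S₀ := tsum_nonneg fun n => by positivity
  have hσ := D.σ0
  have hδ := D.δ0
  set C₁ : ℝ := 2 / δ * S₀ * (4 * (σ + 1) / s₁.re) ^ 2 with hC₁
  set C₂ : ℝ := m / ‖s₁‖ * 4 with hC₂
  have hC10 : 0 ≤ C₁ := by positivity
  have hC20 : 0 ≤ C₂ := by positivity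
  refine ⟨m, E, |M| * (2 * V) ^ 2 + C₁ + C₂, hm0, hdiff, hEne, by positivity, fun v hv => ?_⟩
  obtain ⟨hv1, hv2⟩ := hnorm v hv
  have hvn : 0 < ‖v‖ := norm_pos_iff.2 (hv0 v hv)
  rw [le_div_iff₀ (by positivity)]
  rcases le_or_gt v.re V with h3 | h3
  · have e1 := (hM v hv h3).trans (le_abs_self M)
    have e2 : ‖v‖ ^ 2 ≤ (2 * V) ^ 2 := pow_le_pow_left₀ hvn.le (by linarith) 2
    have e3 : ‖E v‖ * ‖v‖ ^ 2 ≤ |M| * (2 * V) ^ 2 :=
      mul_le_mul e1 e2 (by positivity) (abs_nonneg _)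
    linarith
  · obtain ⟨e1, e2⟩ := h2 v hv h3.le
    have hvne : v ≠ 1 := by
      intro h4
      rw [h4] at h3
      simp at h3
      linarith
    rw [hEne v hvne, ← H.eq _ (by linarith : σ < (v * s₁).re)]
    have e3 := P_le D (s := v * s₁) (by linarith)
    rw [← hSg] at e3
    -- lower bound for `Re (v s₁) - σ`
    have e4 : v.re * s₁.re / (2 * (σ + 1)) ≤ (v * s₁).re - σ := by
      rw [div_le_iff₀ (by positivity)]
      nlinarith
    have e5 : 0 < v.re * s₁.re / (2 * (σ + 1)) := by positivity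
    have e6 : ‖P lam c (v * s₁)‖ * ‖v‖ ^ 2 ≤ C₁ := by
      calc ‖P lam c (v * s₁)‖ * ‖v‖ ^ 2 ≤
            (2 / δ * S₀ / ((v * s₁).re - σ) ^ 2) * (2 * v.re) ^ 2 := by gcongr
        _ ≤ (2 / δ * S₀ / (v.re * s₁.re / (2 * (σ + 1))) ^ 2) * (2 * v.re) ^ 2 := by gcongr
        _ = C₁ := by
          rw [hC₁]
          field_simp
          ring
    have e7 : ‖(m : ℂ) / (s₁ * (v * (v - 1)))‖ * ‖v‖ ^ 2 ≤ C₂ := by
      have e8 : v.re / 2 ≤ ‖v - 1‖ := by
        have := Complex.re_le_norm (v - 1)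
        simp only [Complex.sub_re, Complex.one_re] at this
        linarith
      have e9 : 0 < ‖v - 1‖ := by linarith
      have hsn : 0 < ‖s₁‖ := norm_pos_iff.2 hs0
      rw [norm_div, norm_mul, norm_mul, Complex.norm_natCast]
      have e10 : (m : ℝ) / (‖s₁‖ * (‖v‖ * ‖v - 1‖)) * ‖v‖ ^ 2 = m / ‖s₁‖ * (‖v‖ / ‖v - 1‖) := by
        field_simp
      rw [e10, hC₂]
      have e11 : ‖v‖ / ‖v - 1‖ ≤ 4 := by
        rw [div_le_iff₀ e9]
        linarith
      gcongr
    have e8 : 0 ≤ |M| * (2 * V) ^ 2 := by positivity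
    calc ‖P lam c (v * s₁) - m / (s₁ * (v * (v - 1)))‖ * ‖v‖ ^ 2 ≤
        (‖P lam c (v * s₁)‖ + ‖(m : ℂ) / (s₁ * (v * (v - 1)))‖) * ‖v‖ ^ 2 := by
          gcongr
          exact norm_sub_le _ _
      _ = ‖P lam c (v * s₁)‖ * ‖v‖ ^ 2 + ‖(m : ℂ) / (s₁ * (v * (v - 1)))‖ * ‖v‖ ^ 2 := by ring
      _ ≤ _ := by linarith

/-- the outermost zero on a ray -/
theorem outermost' (H : Cont lam c σ θ Ψ Kf) {s₀ : ℂ} (hs : θ < s₀.re) (h0 : Ψ s₀ = 0) :
    ∃ r₁ : ℝ, 1 ≤ r₁ ∧ θ < ((r₁ : ℂ) * s₀).re ∧ Ψ (r₁ * s₀) = 0 ∧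
      ∀ v : ℝ, 1 < v → Ψ (v * (r₁ * s₀)) ≠ 0 := by
  have hpos : 0 < s₀.re := H.θ0.trans_lt hs
  have hσ : s₀.re ≤ σ := by
    by_contra h
    exact H.ne s₀ (not_le.1 h) h0
  set R : ℝ := σ / s₀.re + 1 with hR
  have hR1 : σ < R * s₀.re := by
    rw [hR, add_mul, div_mul_cancel₀ _ hpos.ne']
    linarith
  have hR2 : 1 ≤ R := by
    have : 0 ≤ σ / s₀.re := div_nonneg (hpos.le.trans hσ) hpos.le
    linarith
  have hre : ∀ r : ℝ, ((r : ℂ) * s₀).re = r * s₀.re := fun r => by simp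
  set Z : Set ℝ := {r | r ∈ Icc 1 R ∧ Ψ (r * s₀) = 0} with hZ
  have hcont : ContinuousOn (fun r : ℝ => Ψ (r * s₀)) (Icc 1 R) := by
    intro r hr
    have h1 : θ < ((r : ℂ) * s₀).re := by
      rw [hre]
      nlinarith [hr.1]
    have h2 : ContinuousAt Ψ ((r : ℂ) * s₀) := (H.Ψd _ h1).continuousAt
    exact (ContinuousAt.comp (f := fun r : ℝ => (r : ℂ) * s₀) h2 (by fun_prop)).continuousWithinAt
  have hZc : IsCompact Z := by
    have h1 : IsClosed (Icc 1 R ∩ (fun r : ℝ => Ψ (r * s₀)) ⁻¹' {0}) :=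
      hcont.preimage_isClosed_of_isClosed isClosed_Icc isClosed_singleton
    refine isCompact_Icc.of_isClosed_subset h1 (fun r hr => hr.1)
  have hne : Z.Nonempty := ⟨1, ⟨le_rfl, hR2⟩, by simpa using h0⟩
  have h1 := hZc.sSup_mem hne
  set r₁ := sSup Z with hr₁
  have hr1 : 1 ≤ r₁ := h1.1.1
  refine ⟨r₁, hr1, ?_, h1.2, fun v hv h2 => ?_⟩
  · rw [hre]
    nlinarith
  · have h3 : (v : ℂ) * (r₁ * s₀) = ((v * r₁ : ℝ) : ℂ) * s₀ := by push_cast; ring
    rw [h3] at h2
    have h4 : r₁ < v * r₁ := by nlinarith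
    by_cases h5 : v * r₁ ≤ R
    · have h6 : v * r₁ ∈ Z := ⟨⟨by linarith, h5⟩, h2⟩
      have := le_csSup hZc.bddAbove h6
      linarith
    · push Not at h5
      refine H.ne _ ?_ h2
      rw [hre]
      have := mul_lt_mul_of_pos_right h5 hpos
      linarith

end Pool.Agent.TH942.OS
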